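import Pool.Agent.H346.AT.Main

set_option autoImplicit false

/-!
# A finitely presented acylindrically arboreal group all of whose non-elementary acylindrical
actions on simplicial trees have an edge stabiliser which is not finitely generated
-/

namespace Pool.Agent.Results.MP_29a457_al.NoFGEdgeStabilisers

universe u

/-- An action of the group `G` on a simplicial tree with vertex set `V`, by simplicial
automorphisms and without inversions. -/
structure TreeAction (G : Type) [Group G] (V : Type u) where
  /-- the tree -/
  T : SimpleGraph V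
  /-- it is a tree -/
  isTree : T.IsTree
  /-- the action of `G` on the vertices -/
  act : G →* Equiv.Perm V
  /-- it is by automorphisms of the tree -/
  adj : ∀ g u v, T.Adj u v → T.Adj (act g u) (act g v)
  /-- no element exchanges the ends of an edge -/
  noInversion : ∀ g u v, T.Adj u v → ¬ (act g u = v ∧ act g v = u)

namespace TreeAction

variable {G : Type} [Group G] {V : Type u} (X : TreeAction G V)

/-- The action is acylindrical: for some integers `k ≥ 0` and `C > 0`, every (embedded) edge path
of length at least `k` has a pointwise stabiliser of cardinality at most `C`. -/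
def Acylindrical : Prop :=
  ∃ k C : ℕ, 0 < C ∧ ∀ (u v : V) (p : X.T.Walk u v), p.IsPath → k ≤ p.length →
    {g : G | ∀ x ∈ p.support, X.act g x = x}.encard ≤ C

/-- The action is non-elementary: no vertex is fixed by `G`, and no bi-infinite geodesic is
preserved setwise by `G`. -/
def NonElementary : Prop :=
  (¬ ∃ v : V, ∀ g : G, X.act g v = v) ∧
  ¬ ∃ γ : ℤ → V, (∀ i j : ℤ, X.T.dist (γ i) (γ j) = (i - j).natAbs) ∧
    ∀ g : G, X.act g '' Set.range γ = Set.range γ

/-- The stabiliser of the edge joining `u` and `v` (the elements fixing `u` and `v`). -/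
def edgeStabiliser (u v : V) : Subgroup G where
  carrier := {g | X.act g u = u ∧ X.act g v = v}
  one_mem' := by simp
  mul_mem' := by
    rintro a b ⟨h1, h2⟩ ⟨h3, h4⟩
    exact ⟨by rw [map_mul, Equiv.Perm.mul_apply, h3, h1],
      by rw [map_mul, Equiv.Perm.mul_apply, h4, h2]⟩
  inv_mem' := by
    rintro a ⟨h1, h2⟩
    exact ⟨by rw [map_inv, Equiv.Perm.inv_eq_iff_eq, h1],
      by rw [map_inv, Equiv.Perm.inv_eq_iff_eq, h2]⟩

end TreeAction

/-- `G` is acylindrically arboreal: it has a non-elementary acylindrical action on some simplicial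
tree. -/
def AcylindricallyArboreal (G : Type) [Group G] : Prop :=
  ∃ (V : Type) (X : TreeAction G V), X.Acylindrical ∧ X.NonElementary

open Pool.Agent.H346.AT in
/-- Some finitely presented acylindrically arboreal group has, in every non-elementary acylindrical
action on a simplicial tree, an edge stabiliser which is not finitely generated. -/
theorem result : ∃ (G : Type) (_ : Group G), Group.IsFinitelyPresented G ∧
    AcylindricallyArboreal G ∧
    ∀ (V : Type u) (X : TreeAction G V), X.Acylindrical → X.NonElementary →
      ∃ u v : V, X.T.Adj u v ∧ ¬ (X.edgeStabiliser u v).FG := by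
  refine ⟨GG, inferInstance, fp, ⟨BV DD, ⟨bsGraph DD, DD_tree, bsAct DD, bs_adj_act, bs_noinv⟩,
    ⟨5, 1, one_pos, ?_⟩, DD_no_fixed, ?_⟩, ?_⟩
  · intro u v p hp hl
    have h : {g : GG | ∀ x ∈ p.support, bsAct DD g x = x} ⊆ {1} := by
      intro g hg
      exact DD_acyl p hp hl g hg
    exact (Set.encard_le_encard h).trans (by simp)
  · rintro ⟨γ, h1, h2⟩
    refine DD_no_line ⟨γ, h1, fun g i => ?_⟩
    have h3 : bsAct DD g (γ i) ∈ Set.range γ := by
      rw [← h2 g]
      exact ⟨γ i, ⟨i, rfl⟩, rfl⟩
    obtain ⟨j, hj⟩ := h3
    exact ⟨j, hj.symm⟩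
  · rintro V X ⟨k, C, -, hac⟩ ⟨hfix, -⟩
    obtain ⟨u, v, huv, h⟩ := main X.act X.adj X.isTree X.noInversion k (by
      intro x y hxy
      obtain ⟨p, hp⟩ := (X.isTree.1 x y).exists_walk_length_eq_dist
      have hpath : p.IsPath := SimpleGraph.Walk.isPath_of_length_eq_dist _ hp
      have h1 := hac x y p hpath (by omega)
      have h2 : {g : GG | ∀ z ∈ p.support, X.act g z = z}.Finite :=
        Set.finite_of_encard_le_coe h1
      refine h2.subset ?_
      rintro g ⟨hg1, hg2⟩ z hz
      refine fix_bt X.act X.adj X.isTree hg1 hg2 ?_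
      classical
      have h3 := congrArg SimpleGraph.Walk.length (p.take_spec hz)
      rw [SimpleGraph.Walk.length_append] at h3
      have h4 := SimpleGraph.dist_le (p.takeUntil z hz)
      have h5 := SimpleGraph.dist_le (p.dropUntil z hz)
      have h6 := tri X.isTree x z y
      unfold Bt
      omega) hfix
    exact ⟨u, v, huv, fun hfg => h hfg⟩

end Pool.Agent.Results.MP_29a457_al.NoFGEdgeStabilisers
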